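import Mathlib

/-!
# Amiable semigroups avoiding `F` do not form a quasivariety

The monoids `C n` of order-preserving maps `f` of `{0, ..., n}` with `i ≤ f i` are finite and
amiable, hence they avoid the infinite semigroup `F = ⟨a, b | a² = a, b² = b⟩`. Their direct
product contains `F`. So the class of amiable semigroups avoiding `F` is not closed under direct
products, and cannot be axiomatised by quasi-identities.
-/

set_option autoImplicit false

namespace Pool.Agent.Results.MP_e1ef61_al.NotQuasivariety

/-- Algebras of type `⟨2, 1, 1⟩`. -/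
structure Alg : Type 1 where
  /-- the underlying set -/
  carrier : Type
  /-- the binary operation -/
  mul : carrier → carrier → carrier
  /-- the unary operation `x ↦ x_ℓ` -/
  l : carrier → carrier
  /-- the unary operation `x ↦ x_r` -/
  r : carrier → carrier

/-- `x L* y`: for all `u, v` in `S^1`, `x u = x v ↔ y u = y v` (the second clause is the case in
which one of `u`, `v` is the identity of `S^1`). -/
def LStar (A : Alg) (x y : A.carrier) : Prop :=
  (∀ u v, A.mul x u = A.mul x v ↔ A.mul y u = A.mul y v) ∧
    (∀ u, A.mul x u = x ↔ A.mul y u = y)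

/-- `x R* y`: for all `u, v` in `S^1`, `u x = v x ↔ u y = v y` (the second clause is the case in
which one of `u`, `v` is the identity of `S^1`). -/
def RStar (A : Alg) (x y : A.carrier) : Prop :=
  (∀ u v, A.mul u x = A.mul v x ↔ A.mul u y = A.mul v y) ∧
    (∀ u, A.mul u x = x ↔ A.mul u y = y)

/-- `A` is an amiable semigroup with its two unary operations: the multiplication is associative,
every `L*`-class and every `R*`-class contains exactly one idempotent, and these idempotents are
the values of the two unary operations. -/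
structure IsAmiable (A : Alg) : Prop where
  assoc : ∀ x y z, A.mul (A.mul x y) z = A.mul x (A.mul y z)
  existsUnique_l : ∀ x, ∃! e, A.mul e e = e ∧ LStar A x e
  existsUnique_r : ∀ x, ∃! e, A.mul e e = e ∧ RStar A x e
  l_spec : ∀ x, A.mul (A.l x) (A.l x) = A.l x ∧ LStar A x (A.l x)
  r_spec : ∀ x, A.mul (A.r x) (A.r x) = A.r x ∧ RStar A x (A.r x)

/-- The defining relations of `F`: `a² = a` and `b² = b`, the letters `a`, `b` being the two
Booleans. -/
inductive Rel : FreeSemigroup Bool → FreeSemigroup Bool → Prop
  | idem (c : Bool) : Rel (FreeSemigroup.of c * FreeSemigroup.of c) (FreeSemigroup.of c)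

/-- The semigroup `F = ⟨a, b | a² = a, b² = b⟩`. -/
abbrev F : Type := (conGen Rel).Quotient

/-- `A` avoids `F`: there is no injective multiplicative map from `F` to `A`, that is, no
subsemigroup of `A` is isomorphic to `F`. -/
def AvoidsF (A : Alg) : Prop :=
  ¬ ∃ φ : F → A.carrier, (∀ x y, φ (x * y) = A.mul (φ x) (φ y)) ∧ Function.Injective φ

/-- The class `K`: amiable semigroups that avoid `F`. -/
def InK (A : Alg) : Prop := IsAmiable A ∧ AvoidsF A

/-- Terms of type `⟨2, 1, 1⟩`. -/
inductive Term : Type
  | var (n : ℕ) : Term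
  | mul (s t : Term) : Term
  | l (t : Term) : Term
  | r (t : Term) : Term

/-- The value of a term. -/
def Term.eval (A : Alg) (v : ℕ → A.carrier) : Term → A.carrier
  | .var n => v n
  | .mul s t => A.mul (s.eval A v) (t.eval A v)
  | .l t => A.l (t.eval A v)
  | .r t => A.r (t.eval A v)

/-- A quasi-identity: an implication from a finite conjunction of equations to an equation. -/
structure QuasiId : Type where
  /-- the hypotheses -/
  hyps : List (Term × Term)
  /-- the conclusion -/
  concl : Term × Term

/-- `A` satisfies the quasi-identity `q`. -/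
def Sat (A : Alg) (q : QuasiId) : Prop :=
  ∀ v : ℕ → A.carrier, (∀ p ∈ q.hyps, p.1.eval A v = p.2.eval A v) →
    q.concl.1.eval A v = q.concl.2.eval A v

/-- The direct product of a family of algebras. -/
def prod {ι : Type} (A : ι → Alg) : Alg where
  carrier := ∀ i, (A i).carrier
  mul x y := fun i => (A i).mul (x i) (y i)
  l x := fun i => (A i).l (x i)
  r x := fun i => (A i).r (x i)

theorem eval_prod {ι : Type} (A : ι → Alg) (v : ℕ → (prod A).carrier) (t : Term) (i : ι) :
    t.eval (prod A) v i = t.eval (A i) (fun n => v n i) := by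
  induction t with
  | var n => rfl
  | mul s t hs ht =>
    change (A i).mul (s.eval (prod A) v i) (t.eval (prod A) v i) = _
    rw [hs, ht]
    rfl
  | l t ht =>
    change (A i).l (t.eval (prod A) v i) = _
    rw [ht]
    rfl
  | r t ht =>
    change (A i).r (t.eval (prod A) v i) = _
    rw [ht]
    rfl

theorem sat_prod {ι : Type} (A : ι → Alg) (q : QuasiId) (h : ∀ i, Sat (A i) q) :
    Sat (prod A) q := by
  intro v hv
  funext i
  rw [eval_prod, eval_prod]
  apply h i
  intro p hp
  rw [← eval_prod, ← eval_prod, hv p hp]

/-! ### The finite amiable monoids -/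

/-- Order-preserving extensive maps of `{0, ..., n}`. -/
def C (n : ℕ) : Type := {f : Fin (n + 1) → Fin (n + 1) // Monotone f ∧ ∀ i, i ≤ f i}

instance (n : ℕ) : Finite (C n) := Subtype.finite

namespace C

variable {n : ℕ}

/-- Composition. -/
def comp (f g : C n) : C n :=
  ⟨f.1 ∘ g.1, f.2.1.comp g.2.1, fun i => (g.2.2 i).trans (f.2.2 _)⟩

/-- The largest element with the same image. -/
noncomputable def top (f : C n) : C n :=
  ⟨fun i => (Finset.univ.filter (fun j => f.1 j = f.1 i)).max' ⟨i, by simp⟩, by
    constructor
    · intro i j hij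
      apply Finset.max'_le
      intro k hk
      simp only [Finset.mem_filter, Finset.mem_univ, true_and] at hk
      have hm := Finset.max'_mem (Finset.univ.filter (fun m => f.1 m = f.1 j)) ⟨j, by simp⟩
      simp only [Finset.mem_filter, Finset.mem_univ, true_and] at hm
      rcases le_total k ((Finset.univ.filter (fun m => f.1 m = f.1 j)).max' ⟨j, by simp⟩)
        with h | h
      · exact h
      · apply Finset.le_max'
        simp only [Finset.mem_filter, Finset.mem_univ, true_and]
        apply le_antisymm
        · rw [hk]; exact f.2.1 hij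
        · rw [← hm]; exact f.2.1 h
    · intro i
      apply Finset.le_max'
      simp⟩

theorem f_top (f : C n) (i : Fin (n + 1)) : f.1 (f.top.1 i) = f.1 i := by
  have hm := Finset.max'_mem (Finset.univ.filter (fun m => f.1 m = f.1 i)) ⟨i, by simp⟩
  simp only [Finset.mem_filter, Finset.mem_univ, true_and] at hm
  exact hm

theorem top_eq_of_eq (f : C n) {i j : Fin (n + 1)} (h : f.1 i = f.1 j) :
    f.top.1 i = f.top.1 j := by
  simp only [top, h]

theorem top_eq_iff (f : C n) (i j : Fin (n + 1)) : f.top.1 i = f.top.1 j ↔ f.1 i = f.1 j :=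
  ⟨fun h => by rw [← f_top f i, ← f_top f j, h], top_eq_of_eq f⟩

/-- The least element of the image above. -/
noncomputable def up (f : C n) : C n :=
  ⟨fun i => (Finset.univ.filter (fun j => i ≤ j ∧ j ∈ Set.range f.1)).min'
      ⟨f.1 i, by simp [f.2.2 i]⟩, by
    constructor
    · intro i j hij
      apply Finset.le_min'
      intro k hk
      simp only [Finset.mem_filter, Finset.mem_univ, true_and] at hk
      apply Finset.min'_le
      simp only [Finset.mem_filter, Finset.mem_univ, true_and]
      exact ⟨hij.trans hk.1, hk.2⟩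
    · intro i
      apply Finset.le_min'
      intro k hk
      simp only [Finset.mem_filter, Finset.mem_univ, true_and] at hk
      exact hk.1⟩

theorem up_mem (f : C n) (i : Fin (n + 1)) : f.up.1 i ∈ Set.range f.1 := by
  have hm := Finset.min'_mem (Finset.univ.filter (fun j => i ≤ j ∧ j ∈ Set.range f.1))
      ⟨f.1 i, by simp [f.2.2 i]⟩
  simp only [Finset.mem_filter, Finset.mem_univ, true_and] at hm
  exact hm.2

theorem up_of_mem (f : C n) {i : Fin (n + 1)} (h : i ∈ Set.range f.1) : f.up.1 i = i := by
  apply le_antisymm _ (f.up.2.2 i)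
  apply Finset.min'_le
  simp only [Finset.mem_filter, Finset.mem_univ, true_and]
  exact ⟨le_rfl, h⟩

end C

/-- The algebra of order-preserving extensive maps. -/
noncomputable def CA (n : ℕ) : Alg where
  carrier := C n
  mul := C.comp
  l := C.top
  r := C.up

theorem top_idem {n : ℕ} (f : C n) : f.top.comp f.top = f.top := by
  apply Subtype.ext
  funext i
  change f.top.1 (f.top.1 i) = f.top.1 i
  rw [C.top_eq_iff, C.f_top]

theorem up_idem {n : ℕ} (f : C n) : f.up.comp f.up = f.up := by
  apply Subtype.ext
  funext i
  change f.up.1 (f.up.1 i) = f.up.1 i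
  exact f.up_of_mem (f.up_mem i)

theorem comp_eq_iff_top {n : ℕ} (f u v : C n) :
    f.comp u = f.comp v ↔ f.top.comp u = f.top.comp v := by
  constructor
  · intro h
    apply Subtype.ext
    funext i
    change f.top.1 (u.1 i) = f.top.1 (v.1 i)
    rw [C.top_eq_iff]
    exact congrFun (congrArg Subtype.val h) i
  · intro h
    apply Subtype.ext
    funext i
    change f.1 (u.1 i) = f.1 (v.1 i)
    rw [← C.top_eq_iff]
    exact congrFun (congrArg Subtype.val h) i

theorem comp_eq_iff_up {n : ℕ} (f u v : C n) :
    u.comp f = v.comp f ↔ u.comp f.up = v.comp f.up := by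
  constructor
  · intro h
    apply Subtype.ext
    funext i
    change u.1 (f.up.1 i) = v.1 (f.up.1 i)
    obtain ⟨j, hj⟩ := f.up_mem i
    rw [← hj]
    exact congrFun (congrArg Subtype.val h) j
  · intro h
    apply Subtype.ext
    funext i
    change u.1 (f.1 i) = v.1 (f.1 i)
    have := congrFun (congrArg Subtype.val h) (f.1 i)
    change u.1 (f.up.1 (f.1 i)) = v.1 (f.up.1 (f.1 i)) at this
    rwa [f.up_of_mem ⟨i, rfl⟩] at this

/-- The identity. -/
def one (n : ℕ) : C n := ⟨id, monotone_id, fun _ => le_rfl⟩

theorem comp_one {n : ℕ} (f : C n) : f.comp (one n) = f := rfl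

theorem one_comp {n : ℕ} (f : C n) : (one n).comp f = f := rfl

theorem lstar_top {n : ℕ} (f : C n) : LStar (CA n) f f.top :=
  ⟨fun u v => comp_eq_iff_top f u v, fun u => comp_eq_iff_top f u (one n)⟩

theorem rstar_up {n : ℕ} (f : C n) : RStar (CA n) f f.up :=
  ⟨fun u v => comp_eq_iff_up f u v, fun u => comp_eq_iff_up f u (one n)⟩

theorem CA_amiable (n : ℕ) : IsAmiable (CA n) where
  assoc x y z := rfl
  existsUnique_l x := by
    refine ⟨C.top x, ⟨top_idem x, lstar_top x⟩, ?_⟩
    rintro e ⟨he, hxe⟩
    -- `e` and `top x` are idempotents that are `L*`-related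
    have h1 : C.comp (C.top x) e = C.top x :=
      ((lstar_top x).2 e).1 ((hxe.2 e).2 he)
    have h2 : C.comp e (C.top x) = e :=
      (hxe.2 (C.top x)).1 (((lstar_top x).2 (C.top x)).2 (top_idem x))
    apply Subtype.ext
    funext i
    apply le_antisymm
    · have := congrFun (congrArg Subtype.val h1) i
      change (C.top x).1 (e.1 i) = (C.top x).1 i at this
      rw [← this]
      exact (C.top x).2.2 _
    · have := congrFun (congrArg Subtype.val h2) i
      change e.1 ((C.top x).1 i) = e.1 i at this
      rw [← this]
      exact e.2.2 _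
  existsUnique_r x := by
    refine ⟨C.up x, ⟨up_idem x, rstar_up x⟩, ?_⟩
    rintro e ⟨he, hxe⟩
    have h1 : C.comp e (C.up x) = C.up x :=
      ((rstar_up x).2 e).1 ((hxe.2 e).2 he)
    have h2 : C.comp (C.up x) e = e :=
      (hxe.2 (C.up x)).1 (((rstar_up x).2 (C.up x)).2 (up_idem x))
    apply Subtype.ext
    funext i
    apply le_antisymm
    · have := congrFun (congrArg Subtype.val h1) i
      change e.1 ((C.up x).1 i) = (C.up x).1 i at this
      rw [← this]
      exact e.2.1 ((C.up x).2.2 i)
    · have := congrFun (congrArg Subtype.val h2) i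
      change (C.up x).1 (e.1 i) = e.1 i at this
      rw [← this]
      exact (C.up x).2.1 (e.2.2 i)
  l_spec x := ⟨top_idem x, lstar_top x⟩
  r_spec x := ⟨up_idem x, rstar_up x⟩

/-! ### A copy of `F` in the product -/

/-- The generators, on natural numbers: `false` moves the even points and `true` moves the odd
points. -/
def g (n : ℕ) (c : Bool) (i : ℕ) : ℕ := if i % 2 = c.toNat then min (i + 1) n else i

theorem g_le (n : ℕ) (c : Bool) (i : ℕ) (h : i < n + 1) : g n c i < n + 1 := by
  unfold g
  split_ifs <;> omega

theorem le_g (n : ℕ) (c : Bool) (i : ℕ) (h : i < n + 1) : i ≤ g n c i := by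
  unfold g
  split_ifs <;> omega

theorem g_mono (n : ℕ) (c : Bool) (i j : ℕ) (h : i < n + 1) (h' : j < n + 1) (hij : i ≤ j) :
    g n c i ≤ g n c j := by
  unfold g
  split_ifs with h1 h2 h2
  · omega
  · rcases Nat.lt_or_ge i j with h3 | h3
    · omega
    · exfalso; apply h2; rw [← h1]; congr 1; omega
  · omega
  · exact hij

theorem g_idem (n : ℕ) (c : Bool) (i : ℕ) (h : i < n + 1) : g n c (g n c i) = g n c i := by
  unfold g
  split_ifs with h1 h2 <;> omega

/-- The generators: `false` moves the even points and `true` moves the odd points. -/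
def gen (n : ℕ) (c : Bool) : C n :=
  ⟨fun i => ⟨g n c i.val, g_le n c i.val i.2⟩,
    fun i j hij => g_mono n c i.val j.val i.2 j.2 hij, fun i => le_g n c i.val i.2⟩

theorem gen_idem (n : ℕ) (c : Bool) : (gen n c).comp (gen n c) = gen n c := by
  apply Subtype.ext
  funext i
  exact Fin.ext (g_idem n c i.val i.2)

/-- The product of all the `C n`. -/
noncomputable abbrev P : Alg := prod CA

/-- The multiplicative structure on `P`. -/
noncomputable instance : Mul P.carrier := ⟨P.mul⟩

noncomputable instance : Semigroup P.carrier where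
  mul_assoc _ _ _ := rfl

/-- The map from the free semigroup. -/
noncomputable def φ₀ : FreeSemigroup Bool →ₙ* P.carrier :=
  FreeSemigroup.lift (fun c => (fun n => gen n c : P.carrier))

theorem φ₀_of (c : Bool) (n : ℕ) : φ₀ (FreeSemigroup.of c) n = gen n c := rfl

theorem con_le : ∀ x y, conGen Rel x y → φ₀ x = φ₀ y := by
  have h : conGen Rel ≤ Con.ker φ₀ := by
    rw [Con.conGen_le]
    rintro _ _ ⟨c⟩
    change φ₀ (FreeSemigroup.of c * FreeSemigroup.of c) = φ₀ (FreeSemigroup.of c)
    rw [map_mul]
    funext n
    exact gen_idem n c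
  intro x y hxy
  exact h hxy

/-- The map from `F` to the product. -/
noncomputable def φ (x : F) : P.carrier := Con.liftOn x φ₀ con_le

theorem φ_coe (w : FreeSemigroup Bool) : φ (w : F) = φ₀ w := rfl

theorem φ_mul (x y : F) : φ (x * y) = P.mul (φ x) (φ y) := by
  induction x, y using Con.induction_on₂ with
  | H x y =>
    rw [← Con.coe_mul, φ_coe, φ_coe, φ_coe, map_mul]
    rfl

/-- The letter in the word of length `L + 1` ending with `c` that is the first one. -/
def first (c : Bool) : ℕ → Bool
  | 0 => c
  | L + 1 => !(first c L)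

/-- The alternating word of length `L + 1` with last letter `c`, as an element of `F`. -/
def alt (c : Bool) : ℕ → F
  | 0 => ((FreeSemigroup.of c : FreeSemigroup Bool) : F)
  | L + 1 => ((FreeSemigroup.of (first c (L + 1)) : FreeSemigroup Bool) : F) * alt c L

theorem of_idem (c : Bool) :
    ((FreeSemigroup.of c : FreeSemigroup Bool) : F) * ((FreeSemigroup.of c : FreeSemigroup Bool) : F)
      = ((FreeSemigroup.of c : FreeSemigroup Bool) : F) := by
  rw [← Con.coe_mul]
  exact (Con.eq _).2 (ConGen.Rel.of _ _ (Rel.idem c))

theorem first_mul_alt (c : Bool) (L : ℕ) :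
    ((FreeSemigroup.of (first c L) : FreeSemigroup Bool) : F) * alt c L = alt c L := by
  cases L with
  | zero => exact of_idem c
  | succ L => rw [alt, ← mul_assoc, of_idem]

theorem exists_alt (w : FreeSemigroup Bool) : ∃ c L, (w : F) = alt c L := by
  induction w using FreeSemigroup.recOnMul with
  | ih1 c => exact ⟨c, 0, rfl⟩
  | ih2 d w _ ih =>
    obtain ⟨c, L, h⟩ := ih
    rcases Bool.eq_or_eq_not d (first c L) with hd | hd
    · refine ⟨c, L, ?_⟩
      rw [Con.coe_mul, h, hd, first_mul_alt]
    · refine ⟨c, L + 1, ?_⟩
      rw [Con.coe_mul, h, hd]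
      rfl

theorem gen_val (n : ℕ) (c : Bool) (i : Fin (n + 1)) (h : i.val % 2 = c.toNat) (hn : i.val < n) :
    ((gen n c).1 i).val = i.val + 1 := by
  change g n c i.val = _
  unfold g
  rw [if_pos h]
  omega

theorem gen_val' (n : ℕ) (c : Bool) (i : Fin (n + 1)) (h : i.val % 2 ≠ c.toNat) :
    ((gen n c).1 i).val = i.val := by
  change g n c i.val = _
  unfold g
  rw [if_neg h]

theorem first_toNat (c : Bool) (L : ℕ) : (first c L).toNat = (c.toNat + L) % 2 := by
  induction L with
  | zero => cases c <;> rfl
  | succ L ih =>
    have : (first c (L + 1)).toNat = 1 - (first c L).toNat := by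
      change (!(first c L)).toNat = _
      cases first c L <;> rfl
    omega

/-- The value on a point of the parity of the last letter. -/
theorem alt_val (c : Bool) (L n : ℕ) (i : Fin (n + 1)) (h : i.val % 2 = c.toNat)
    (hn : i.val + L < n) : ((φ (alt c L) n).1 i).val = i.val + L + 1 := by
  induction L with
  | zero => exact gen_val n c i h hn
  | succ L ih =>
    rw [alt, φ_mul]
    change ((gen n (first c (L + 1))).1 ((φ (alt c L) n).1 i)).val = _
    have h1 := ih (by omega)
    have h2 : ((φ (alt c L) n).1 i).val % 2 = (first c (L + 1)).toNat := by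
      rw [h1, first_toNat]
      omega
    rw [gen_val _ _ _ h2 (by omega), h1]
    omega

/-- The value on a point of the other parity. -/
theorem alt_val' (c : Bool) (L n : ℕ) (i : Fin (n + 1)) (h : i.val % 2 ≠ c.toNat)
    (hn : i.val + L < n) : ((φ (alt c L) n).1 i).val = i.val + L := by
  induction L with
  | zero => exact gen_val' n c i h
  | succ L ih =>
    rw [alt, φ_mul]
    change ((gen n (first c (L + 1))).1 ((φ (alt c L) n).1 i)).val = _
    have h1 := ih (by omega)
    have hc : c.toNat < 2 := by cases c <;> decide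
    have h2 : ((φ (alt c L) n).1 i).val % 2 = (first c (L + 1)).toNat := by
      rw [h1, first_toNat]
      omega
    rw [gen_val _ _ _ h2 (by omega), h1]
    omega

theorem alt_inj (c d : Bool) (L M : ℕ) (h : φ (alt c L) = φ (alt d M)) : c = d ∧ L = M := by
  have h0 := congrArg (fun x => (x.1 ⟨0, by omega⟩).val) (congrFun h (L + M + 2))
  have h1 := congrArg (fun x => (x.1 ⟨1, by omega⟩).val) (congrFun h (L + M + 2))
  cases c <;> cases d
  · rw [alt_val false L _ _ rfl (by simp only; omega),
      alt_val false M _ _ rfl (by simp only; omega)] at h0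
    exact ⟨rfl, by omega⟩
  · rw [alt_val false L _ _ rfl (by simp only; omega),
      alt_val' true M _ _ (by simp) (by simp only; omega)] at h0
    rw [alt_val' false L _ _ (by simp) (by simp only; omega),
      alt_val true M _ _ rfl (by simp only; omega)] at h1
    simp only at h0 h1
    omega
  · rw [alt_val' true L _ _ (by simp) (by simp only; omega),
      alt_val false M _ _ rfl (by simp only; omega)] at h0
    rw [alt_val true L _ _ rfl (by simp only; omega),
      alt_val' false M _ _ (by simp) (by simp only; omega)] at h1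
    simp only at h0 h1
    omega
  · rw [alt_val true L _ _ rfl (by simp only; omega),
      alt_val true M _ _ rfl (by simp only; omega)] at h1
    exact ⟨rfl, by omega⟩

theorem φ_inj : Function.Injective φ := by
  intro x y hxy
  induction x using Con.induction_on with
  | H v =>
  induction y using Con.induction_on with
  | H w =>
  obtain ⟨c, L, h1⟩ := exists_alt v
  obtain ⟨d, M, h2⟩ := exists_alt w
  rw [h1, h2] at hxy ⊢
  obtain ⟨rfl, rfl⟩ := alt_inj c d L M hxy
  rfl

theorem infinite_F : Infinite F :=
  Infinite.of_injective (fun L => alt false L) (fun L M h => (alt_inj false false L M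
    (congrArg φ h)).2)

theorem CA_inK (n : ℕ) : InK (CA n) := by
  refine ⟨CA_amiable n, ?_⟩
  rintro ⟨ψ, -, hψ⟩
  have : Finite (CA n).carrier := inferInstanceAs (Finite (C n))
  have h2 : Finite F := Finite.of_injective ψ hψ
  exact infinite_F.not_finite h2

theorem P_not_inK : ¬ InK P := fun h => h.2 ⟨φ, φ_mul, φ_inj⟩

/-- The class `K` of amiable semigroups avoiding `F` is not axiomatisable by any set of
quasi-identities, and it contains a countable family of finite algebras whose direct product is
not in `K`. -/
theorem result :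
    (¬ ∃ E : Set QuasiId, ∀ A : Alg, InK A ↔ ∀ q ∈ E, Sat A q) ∧
      ∃ A : ℕ → Alg, (∀ n, Finite (A n).carrier ∧ InK (A n)) ∧ ¬ InK (prod A) := by
  refine ⟨?_, CA, fun n => ⟨inferInstanceAs (Finite (C n)), CA_inK n⟩, P_not_inK⟩
  rintro ⟨E, hE⟩
  apply P_not_inK
  rw [hE]
  intro q hq
  exact sat_prod CA q (fun n => (hE (CA n)).1 (CA_inK n) q hq)

end Pool.Agent.Results.MP_e1ef61_al.NotQuasivariety
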